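import Pool.Agent.U85.HP.Sets

/-! A free group of rank continuum acting on the hyperbolic plane whose generators are
parabolic and whose point stabilizers are commutative. -/

set_option autoImplicit false

namespace Pool.Agent.U85.HP

open scoped MatrixGroups

section row

variable {ι : Type} {R : Type*} [CommRing R]

/-- sign of a letter -/
def sg (R : Type*) [CommRing R] (a : ι × Bool) : R := if a.2 then 1 else -1

/-- one step on row vectors -/
def stp (s : ι → R) (p : R × R) (a : ι × Bool) : R × R :=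
  (p.1 + 2 * sg R a * (p.1 * s a.1 + p.2), p.2 - 2 * sg R a * s a.1 * (p.1 * s a.1 + p.2))

lemma map_foldl {S : Type*} [CommRing S] (f : R →+* S) (s : ι → R) (w : List (ι × Bool))
    (p : R × R) :
    w.foldl (stp (fun i => f (s i))) (f p.1, f p.2) =
      (f (w.foldl (stp s) p).1, f (w.foldl (stp s) p).2) := by
  induction w generalizing p with
  | nil => rfl
  | cons a w ih =>
    rw [List.foldl_cons, List.foldl_cons, ← ih]
    congr 1
    have hs : f (sg R a) = sg S a := by
      unfold sg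
      split_ifs <;> simp
    have h2 : f 2 = 2 := map_ofNat f 2
    simp [stp, hs, h2]

end row

section real

variable {ι : Type}

lemma sg_sq (a : ι × Bool) : sg ℝ a * sg ℝ a = 1 := by
  unfold sg
  split_ifs <;> norm_num

/-- the invariant region after reading a letter -/
def Inv (s : ι → ℝ) (a : ι × Bool) (p : ℝ × ℝ) : Prop :=
  (p.1 * s a.1 + p.2) ^ 2 < sg ℝ a * p.1 * (p.1 * s a.1 + p.2)

lemma inv_ne {s : ι → ℝ} {a : ι × Bool} {p : ℝ × ℝ} (h : Inv s a p) : p.1 ≠ 0 := by
  intro h0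
  unfold Inv at h
  rw [h0] at h
  nlinarith [sq_nonneg (0 * s a.1 + p.2)]

lemma inv_first {s : ι → ℝ} (a : ι × Bool) : Inv s a (stp s (0, 1) a) := by
  unfold Inv stp
  have := sg_sq a
  simp only
  ring_nf
  nlinarith

lemma inv_same {s : ι → ℝ} {a : ι × Bool} {p : ℝ × ℝ} (h : Inv s a p) :
    Inv s a (stp s p a) := by
  unfold Inv at *
  have hs := sg_sq a
  have e1 : (stp s p a).1 * s a.1 + (stp s p a).2 = p.1 * s a.1 + p.2 := by
    simp only [stp]; ring
  rw [e1]
  set z := p.1 * s a.1 + p.2 with hz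
  have e2 : sg ℝ a * (stp s p a).1 * z = sg ℝ a * p.1 * z + 2 * (sg ℝ a * sg ℝ a) * z ^ 2 := by
    simp only [stp, ← hz]; ring
  rw [e2, hs]
  nlinarith [sq_nonneg z]

lemma inv_diff {s : ι → ℝ} {a b : ι × Bool} {p : ℝ × ℝ} (h : Inv s a p)
    (hab : 2 ≤ |s a.1 - s b.1|) : Inv s b (stp s p b) := by
  have hp := inv_ne h
  unfold Inv at *
  have hsa := sg_sq a
  have hsb := sg_sq b
  have e1 : (stp s p b).1 * s b.1 + (stp s p b).2 = p.1 * s b.1 + p.2 := by
    simp only [stp]; ring
  rw [e1]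
  set za := p.1 * s a.1 + p.2 with hza
  set z := p.1 * s b.1 + p.2 with hz
  have e2 : sg ℝ b * (stp s p b).1 * z = sg ℝ b * p.1 * z + 2 * (sg ℝ b * sg ℝ b) * z ^ 2 := by
    simp only [stp, ← hz]; ring
  rw [e2, hsb]
  have habs : ∀ c : ι × Bool, |sg ℝ c| = 1 := by
    intro c; unfold sg; split_ifs <;> simp
  -- |za| < |x|
  have h1 : |za| < |p.1| := by
    have h2 : |za| ^ 2 < |p.1| * |za| := by
      calc |za| ^ 2 = za ^ 2 := sq_abs za
        _ < sg ℝ a * p.1 * za := h
        _ ≤ |sg ℝ a * p.1 * za| := le_abs_self _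
        _ = |p.1| * |za| := by rw [abs_mul, abs_mul, habs, one_mul]
    by_contra hcon
    push Not at hcon
    nlinarith [abs_nonneg za, abs_nonneg p.1]
  have h3 : |p.1| < |z| := by
    have e3 : za - z = p.1 * (s a.1 - s b.1) := by rw [hza, hz]; ring
    have h4 : |za - z| = |p.1| * |s a.1 - s b.1| := by rw [e3, abs_mul]
    have h5 : |za - z| ≤ |za| + |z| := abs_sub _ _
    have h6 : 0 < |p.1| := abs_pos.2 hp
    nlinarith
  have h7 : -(|p.1| * |z|) ≤ sg ℝ b * p.1 * z := by
    have : |sg ℝ b * p.1 * z| = |p.1| * |z| := by rw [abs_mul, abs_mul, habs, one_mul]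
    rw [← this]; exact neg_abs_le _
  have h8 : 0 < |p.1| := abs_pos.2 hp
  have h9 : z ^ 2 = |z| ^ 2 := (sq_abs z).symm
  rw [h9]
  nlinarith

lemma foldl_ne {s : ι → ℝ} : ∀ (w : List (ι × Bool)) (a : ι × Bool) (p : ℝ × ℝ),
    Red linv (a :: w) →
    (∀ b ∈ a :: w, ∀ c ∈ a :: w, b.1 ≠ c.1 → 2 ≤ |s b.1 - s c.1|) → Inv s a p →
    (w.foldl (stp s) p).1 ≠ 0 := by
  intro w
  induction w with
  | nil => intro a p _ _ h; exact inv_ne h
  | cons b w ih =>
    intro a p hred hsep h
    rw [List.foldl_cons]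
    unfold Red at hred
    rw [List.isChain_cons_cons] at hred
    refine ih b _ hred.2 (fun x hx y hy => hsep x (List.mem_cons_of_mem _ hx) y
      (List.mem_cons_of_mem _ hy)) ?_
    by_cases hab : a.1 = b.1
    · have : a = b := by
        ext
        · exact hab
        · by_contra hne
          apply hred.1
          ext
          · exact hab.symm
          · simp only [linv]
            rcases a with ⟨i, x⟩
            rcases b with ⟨j, y⟩
            revert hne
            cases x <;> cases y <;> simp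
      subst this
      exact inv_same h
    · exact inv_diff h (hsep a (by simp) b (by simp) hab)

lemma rowf_ne {t : ι → ℝ} (ht : AlgebraicIndependent ℚ t) {w : List (ι × Bool)} (hw : w ≠ [])
    (hred : Red linv w) : (w.foldl (stp t) (0, 1)).1 ≠ 0 := by
  classical
  intro h0
  set P : MvPolynomial ι ℚ × MvPolynomial ι ℚ :=
    w.foldl (stp (fun i => MvPolynomial.X i)) (0, 1) with hP
  have hmap : ∀ s : ι → ℝ, MvPolynomial.aeval s P.1 = (w.foldl (stp s) (0, 1)).1 := by
    intro s
    have := map_foldl (MvPolynomial.aeval s : MvPolynomial ι ℚ →ₐ[ℚ] ℝ).toRingHom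
      (fun i => MvPolynomial.X i) w (0, 1)
    simp at this
    rw [this]
  have hP0 : P.1 = 0 := by
    apply ht
    rw [map_zero]
    exact (hmap t).trans h0
  -- a good integer specialization
  let s : ι → ℝ := fun i => 2 * ((w.map Prod.fst).idxOf i : ℝ)
  have hs : (w.foldl (stp s) (0, 1)).1 = 0 := by
    rw [← hmap s, hP0, map_zero]
  obtain ⟨a, w', rfl⟩ := List.exists_cons_of_ne_nil hw
  rw [List.foldl_cons] at hs
  refine foldl_ne w' a _ hred ?_ (inv_first a) hs
  intro b hb c hc hbc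
  have h1 : b.1 ∈ (a :: w').map Prod.fst := List.mem_map_of_mem hb
  have h2 : ((a :: w').map Prod.fst).idxOf b.1 ≠ ((a :: w').map Prod.fst).idxOf c.1 := by
    intro h
    exact hbc ((List.idxOf_inj h1).1 h)
  have h3 : (1 : ℝ) ≤ |(((a :: w').map Prod.fst).idxOf b.1 : ℝ) -
      (((a :: w').map Prod.fst).idxOf c.1 : ℝ)| := by
    have h4 : (((a :: w').map Prod.fst).idxOf b.1 : ℤ) -
      (((a :: w').map Prod.fst).idxOf c.1 : ℤ) ≠ 0 := by
      intro h
      apply h2
      omega
    have h5 := Int.one_le_abs h4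
    exact_mod_cast h5
  have h6 : s b.1 - s c.1 = 2 * ((((a :: w').map Prod.fst).idxOf b.1 : ℝ) -
      (((a :: w').map Prod.fst).idxOf c.1 : ℝ)) := by
    simp only [s]; ring
  rw [h6, abs_mul, abs_two]
  linarith

end real

section sl

open UpperHalfPlane Matrix

variable {ι : Type}

/-- a parabolic matrix fixing the boundary point `t` -/
noncomputable def hSL (t : ℝ) : SL(2, ℝ) :=
  ⟨!![1 + 2 * t, -2 * t ^ 2; 2, 1 - 2 * t], by rw [Matrix.det_fin_two_of]; ring⟩

/-- the representation of the free group -/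
noncomputable def rho (t : ι → ℝ) : FreeGroup ι →* SL(2, ℝ) :=
  FreeGroup.lift (fun i => hSL (t i))

lemma rho_single (t : ι → ℝ) (a : ι × Bool) :
    ((rho t (FreeGroup.mk [a]) : SL(2, ℝ)) : Matrix (Fin 2) (Fin 2) ℝ) =
      !![1 + 2 * sg ℝ a * t a.1, -2 * sg ℝ a * t a.1 ^ 2; 2 * sg ℝ a,
        1 - 2 * sg ℝ a * t a.1] := by
  unfold rho
  rw [FreeGroup.lift_mk]
  rcases a with ⟨i, b⟩
  cases b
  · simp only [List.map_cons, List.map_nil, List.prod_singleton, cond_false]
    rw [Matrix.SpecialLinearGroup.coe_inv]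
    simp [hSL, sg, Matrix.adjugate_fin_two_of]
    ring
  · simp only [List.map_cons, List.map_nil, List.prod_singleton, cond_true]
    simp [hSL, sg]

lemma rho_row (t : ι → ℝ) (w : List (ι × Bool)) :
    ((rho t (FreeGroup.mk w)) 1 0, (rho t (FreeGroup.mk w)) 1 1) =
      w.foldl (stp t) (0, 1) := by
  induction w using List.reverseRecOn with
  | nil =>
    have : FreeGroup.mk ([] : List (ι × Bool)) = 1 := rfl
    rw [this, map_one]
    simp
  | append_singleton w a ih =>
    rw [List.foldl_append, ← ih, ← FreeGroup.mul_mk, map_mul]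
    have h := rho_single t a
    have h00 := congrFun (congrFun h 0) 0
    have h01 := congrFun (congrFun h 0) 1
    have h10 := congrFun (congrFun h 1) 0
    have h11 := congrFun (congrFun h 1) 1
    simp at h00 h01 h10 h11
    rw [Matrix.SpecialLinearGroup.coe_mul]
    simp only [Matrix.mul_apply, Fin.sum_univ_two, List.foldl_cons, List.foldl_nil, stp]
    rw [h00, h01, h10, h11]
    ext
    · simp only []
      ring
    · simp only []
      ring

lemma rho_ne_one {t : ι → ℝ} (ht : AlgebraicIndependent ℚ t) {g : FreeGroup ι}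
    (hg : g ≠ 1) : rho t g ≠ 1 := by
  classical
  intro h
  have hw : g.toWord ≠ [] := by
    intro h'
    exact hg (FreeGroup.toWord_eq_nil_iff.1 h')
  have hred : Red linv g.toWord := (red_iff _).2 FreeGroup.isReduced_toWord
  have h1 := rowf_ne ht hw hred
  rw [← rho_row, FreeGroup.mk_toWord, h] at h1
  simp at h1

lemma rho_inj {t : ι → ℝ} (ht : AlgebraicIndependent ℚ t) {g h : FreeGroup ι}
    (hgh : rho t g = rho t h) : g = h := by
  by_contra hne
  have : g * h⁻¹ ≠ 1 := by
    intro h'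
    exact hne (mul_inv_eq_one.1 h')
  apply rho_ne_one ht this
  rw [map_mul, map_inv, hgh, mul_inv_cancel]

/-- fixed point equations -/
lemma fix_eqs {M : SL(2, ℝ)} {z : ℍ} (h : M • z = z) :
    M 1 1 = M 0 0 - 2 * M 1 0 * z.re ∧ M 0 1 = - M 1 0 * (z.re ^ 2 + z.im ^ 2) := by
  have h1 : ((M • z : ℍ) : ℂ) = z := by rw [h]
  rw [coe_specialLinearGroup_apply] at h1
  simp only [Algebra.algebraMap_self, RingHom.id_apply] at h1
  have hden : ((M 1 0 : ℝ) : ℂ) * z + ((M 1 1 : ℝ) : ℂ) ≠ 0 := by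
    intro h0
    rw [h0, div_zero] at h1
    exact z.ne_zero h1.symm
  rw [div_eq_iff hden] at h1
  have hre := congrArg Complex.re h1
  have him := congrArg Complex.im h1
  simp at hre him
  have hpos := z.im_pos
  have e1 : M 1 1 = M 0 0 - 2 * M 1 0 * z.re := by
    have : z.im * (M 1 1 - (M 0 0 - 2 * M 1 0 * z.re)) = 0 := by nlinarith
    rcases mul_eq_zero.1 this with h2 | h2
    · exact absurd h2 hpos.ne'
    · linarith
  refine ⟨e1, ?_⟩
  rw [e1] at hre
  nlinarith

lemma stab_comm {M N : SL(2, ℝ)} {z : ℍ} (hM : M • z = z) (hN : N • z = z) :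
    M * N = N * M := by
  obtain ⟨a1, a2⟩ := fix_eqs hM
  obtain ⟨b1, b2⟩ := fix_eqs hN
  ext i j
  rw [Matrix.SpecialLinearGroup.coe_mul, Matrix.SpecialLinearGroup.coe_mul]
  simp only [Matrix.mul_apply, Fin.sum_univ_two]
  fin_cases i <;> fin_cases j <;> simp
  · linear_combination N 1 0 * a2 - M 1 0 * b2
  · linear_combination -N 0 1 * a1 + M 0 1 * b1 + 2 * z.re * (M 1 0 * b2 - N 1 0 * a2)
  · linear_combination N 1 0 * a1 - M 1 0 * b1
  · linear_combination M 1 0 * b2 - N 1 0 * a2

lemma hSL_pow (t : ℝ) (k : ℕ) :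
    ((hSL t ^ k : SL(2, ℝ)) : Matrix (Fin 2) (Fin 2) ℝ) =
      !![1 + 2 * k * t, -2 * k * t ^ 2; 2 * k, 1 - 2 * k * t] := by
  induction k with
  | zero => simp [Matrix.one_fin_two]
  | succ k ih =>
    rw [pow_succ, Matrix.SpecialLinearGroup.coe_mul, ih]
    simp only [hSL]
    ext i j
    fin_cases i <;> fin_cases j <;> simp [Matrix.mul_apply, Fin.sum_univ_two] <;> ring

lemma hSL_pow_free (t : ℝ) {k : ℕ} (hk : 0 < k) (z : ℍ) : (hSL t ^ k) • z ≠ z := by
  intro h
  obtain ⟨h1, h2⟩ := fix_eqs h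
  rw [hSL_pow] at h1 h2
  simp at h1 h2
  have hk' : (0 : ℝ) < k := by exact_mod_cast hk
  have hpos := z.im_pos
  have e1 : z.re = t := by
    have : (k : ℝ) * (z.re - t) = 0 := by nlinarith
    rcases mul_eq_zero.1 this with h | h
    · exact absurd h hk'.ne'
    · linarith
  rw [e1] at h2
  rcases h2 with h2 | h2
  · have h3 : 0 < z.im ^ 2 := by positivity
    linarith
  · omega

/-- the permutation of the plane given by a generator -/
noncomputable def sigma (t : ι → ℝ) (i : ι) : Equiv.Perm ℍ := MulAction.toPerm (hSL (t i))⁻¹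

lemma walk_eq (t : ι → ℝ) (w : List (ι × Bool)) (z : ℍ) :
    walk (lact (sigma t)) z w = (rho t (FreeGroup.mk w))⁻¹ • z := by
  induction w generalizing z with
  | nil =>
    have : FreeGroup.mk ([] : List (ι × Bool)) = 1 := rfl
    rw [this, map_one, inv_one, one_smul]
    rfl
  | cons a w ih =>
    have h1 : FreeGroup.mk (a :: w) = FreeGroup.mk [a] * FreeGroup.mk w := by
      rw [FreeGroup.mul_mk]; rfl
    rw [h1, map_mul, _root_.mul_inv_rev, mul_smul, ← ih]
    show walk (lact (sigma t)) (lact (sigma t) a z) w = _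
    congr 1
    unfold rho
    rw [FreeGroup.lift_mk]
    rcases a with ⟨i, b⟩
    cases b
    · simp [lact, sigma]
    · simp [lact, sigma]

lemma sigma_comm {t : ι → ℝ} (ht : AlgebraicIndependent ℚ t) (x : ℍ) (w q : List (ι × Bool))
    (h1 : walk (lact (sigma t)) x w = x) (h2 : walk (lact (sigma t)) x q = x) :
    FreeGroup.mk (w ++ q) = FreeGroup.mk (q ++ w) := by
  rw [walk_eq] at h1 h2
  have h3 := stab_comm h1 h2
  apply rho_inj ht
  rw [← FreeGroup.mul_mk, ← FreeGroup.mul_mk, map_mul, map_mul]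
  rw [← _root_.mul_inv_rev, ← _root_.mul_inv_rev] at h3
  exact (inv_injective h3).symm

lemma sigma_free (t : ι → ℝ) (i : ι) {k : ℕ} (hk : 0 < k) (x : ℍ) :
    (sigma t i ^ k) x ≠ x := by
  have h1 : ∀ n : ℕ, (sigma t i ^ n) x = ((hSL (t i)) ^ n)⁻¹ • x := by
    intro n
    induction n with
    | zero => simp
    | succ n ih =>
      rw [pow_succ', Equiv.Perm.mul_apply, ih]
      simp only [sigma, MulAction.toPerm_apply]
      rw [← mul_smul, ← _root_.mul_inv_rev, ← pow_succ]
  rw [h1]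
  intro h
  apply hSL_pow_free (t i) hk x
  rw [inv_smul_eq_iff] at h
  exact h.symm

end sl

section card

open Cardinal

lemma exists_algInd {ι : Type} (hι : #ι ≤ 𝔠) : ∃ t : ι → ℝ, AlgebraicIndependent ℚ t := by
  obtain ⟨s, hs⟩ := exists_isTranscendenceBasis ℚ ℝ
  have halg : Algebra.IsAlgebraic (Algebra.adjoin ℚ s) ℝ := by
    have := hs.isAlgebraic
    rwa [Subtype.range_coe] at this
  have hcard : #ℝ ≤ max (#(Algebra.adjoin ℚ s)) ℵ₀ :=
    Algebra.IsAlgebraic.cardinalMk_le_max _ _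
  have h2 : #(Algebra.adjoin ℚ s) ≤ max (max (#ℚ) (#s)) ℵ₀ := by
    have e := hs.1.aevalEquiv.toEquiv
    rw [Subtype.range_coe] at e
    rw [← Cardinal.mk_congr e]
    exact MvPolynomial.cardinalMk_le_max
  have h3 : 𝔠 ≤ #s := by
    by_contra hcon
    push Not at hcon
    have h4 : #ℝ < 𝔠 := by
      refine lt_of_le_of_lt hcard ?_
      rw [max_lt_iff]
      refine ⟨lt_of_le_of_lt h2 ?_, aleph0_lt_continuum⟩
      rw [max_lt_iff, max_lt_iff]
      refine ⟨⟨?_, hcon⟩, aleph0_lt_continuum⟩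
      rw [Cardinal.mk_eq_aleph0 ℚ]
      exact aleph0_lt_continuum
    rw [Cardinal.mk_real] at h4
    exact lt_irrefl _ h4
  obtain ⟨f⟩ : Nonempty (ι ↪ s) := by
    rw [← Cardinal.le_def]
    exact hι.trans h3
  exact ⟨fun i => (f i : ℝ), hs.1.comp f f.injective⟩

end card

end Pool.Agent.U85.HP
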