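import Pool.Agent.U85.HP.Label

/-! The unique cycle of a component, when point stabilizers commute. -/

set_option autoImplicit false

namespace Pool.Agent.U85.HP

section cyc

variable {Lt X I : Type} {inv : Lt → Lt} {act : Lt → X → X}

/-- letters read along a path -/
def Wd (a : ℕ → Lt) : ℕ → ℕ → List Lt
  | _, 0 => []
  | s, n + 1 => a s :: Wd a (s + 1) n

lemma Wd_snoc (a : ℕ → Lt) (s n : ℕ) : Wd a s (n + 1) = Wd a s n ++ [a (s + n)] := by
  induction n generalizing s with
  | zero => simp [Wd]
  | succ n ih =>
    rw [Wd, ih (s + 1)]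
    have : s + 1 + n = s + (n + 1) := by ring
    rw [this]
    rfl

lemma walk_Wd {a : ℕ → Lt} {c : ℕ → X} (hc : ∀ n, c (n + 1) = act (a n) (c n)) (s n : ℕ) :
    walk act (c s) (Wd a s n) = c (s + n) := by
  induction n with
  | zero => rfl
  | succ n ih =>
    rw [Wd_snoc, walk_snoc, ih, ← hc]
    rfl

lemma red_Wd {a : ℕ → Lt} (ha : ∀ n, a (n + 1) ≠ inv (a n)) (s n : ℕ) :
    Red inv (Wd a s n) := by
  induction n generalizing s with
  | zero => simp [Wd, Red]
  | succ n ih =>
    cases n with
    | zero => simp [Wd, Red]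
    | succ n =>
      have := ih (s + 1)
      unfold Red at *
      simp only [Wd] at *
      rw [List.isChain_cons_cons]
      exact ⟨ha s, this⟩

/-- formal inverse of a word -/
def invw (inv : Lt → Lt) (u : List Lt) : List Lt := (u.map inv).reverse

lemma walk_invw (hact : ∀ a x, act (inv a) (act a x) = x) (x : X) (u : List Lt) :
    walk act (walk act x u) (invw inv u) = x := by
  induction u generalizing x with
  | nil => rfl
  | cons a u ih =>
    have : invw inv (a :: u) = invw inv u ++ [inv a] := by simp [invw]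
    rw [this, walk_snoc]
    show act (inv a) (walk act (walk act (act a x) u) (invw inv u)) = x
    rw [ih, hact]

lemma red_invw (hinv : ∀ a, inv (inv a) = a) {u : List Lt} (hu : Red inv u) :
    Red inv (invw inv u) := by
  unfold Red invw at *
  rw [List.isChain_reverse, List.isChain_map]
  refine hu.imp ?_
  intro a b hab
  show inv a ≠ inv (inv b)
  rw [hinv]
  intro h
  exact hab h.symm

lemma cyc_claim (hinv : ∀ a, inv (inv a) = a)
    (hact : ∀ a x, act (inv a) (act a x) = x)
    (hcomm : ∀ x w q, walk act x w = x → walk act x q = x → Red inv (w ++ q) →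
      Red inv (q ++ w) → w ++ q = q ++ w)
    {k : ℕ} (hk : 0 < k) {a : ℕ → Lt} {c : ℕ → X} (hc : ∀ n, c (n + 1) = act (a n) (c n))
    (hak : ∀ n, a (n + k) = a n) (hck : ∀ n, c (n + k) = c n)
    (ha : ∀ n, a (n + 1) ≠ inv (a n))
    (hinj : ∀ m n, c m = c n → m ≡ n [MOD k]) (s : ℕ) :
    ∀ (N : ℕ) (u : List Lt) (t : ℕ), u.length = N → u ≠ [] → Red inv u →
      walk act (c (s + 1)) u = c (t + 1) →
      ∃ b r, u = b :: r ∧ (b = a (s + 1) ∨ b = inv (a s)) := by
  have haper : ∀ m n, m ≡ n [MOD k] → a m = a n := by
    intro m n h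
    have hp : Function.Periodic a k := hak
    rw [← hp.map_mod_nat m, ← hp.map_mod_nat n, h]
  intro N
  induction N using Nat.strong_induction_on with
  | _ N ih =>
    intro u t hN hu hred hw
    obtain ⟨u', d, hud⟩ : ∃ u' d, u = u' ++ [d] := by
      rcases List.eq_nil_or_concat u with h | ⟨u', d, h⟩
      · exact absurd h hu
      · exact ⟨u', d, by simpa using h⟩
    have hlen : u'.length < N := by rw [← hN, hud]; simp
    have hred' : Red inv u' := by
      rw [hud] at hred
      exact List.IsChain.left_of_append hred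
    rw [hud, walk_snoc] at hw
    -- going along the cycle at the end
    by_cases h1 : d = a t
    · subst h1
      rw [hc t] at hw
      have h2 := act_inj hact hw
      by_cases hnil : u' = []
      · subst hnil
        have h3 : s + 1 ≡ t [MOD k] := hinj _ _ h2
        exact ⟨a t, [], by simpa using hud, Or.inl (haper _ _ h3.symm)⟩
      · have h3 : walk act (c (s + 1)) u' = c ((t + k - 1) + 1) := by
          rw [h2, ← hck t]
          congr 1
          omega
        obtain ⟨b, r, hb, hb'⟩ := ih _ hlen u' _ rfl hnil hred' h3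
        exact ⟨b, r ++ [a t], by rw [hud, hb]; simp, hb'⟩
    by_cases h1' : d = inv (a (t + 1))
    · subst h1'
      have h2 : walk act (c (s + 1)) u' = c (t + 1 + 1) := by
        rw [hc (t + 1), ← hw]
        have := hact (inv (a (t + 1))) (walk act (c (s + 1)) u')
        rw [hinv] at this
        exact this.symm
      by_cases hnil : u' = []
      · subst hnil
        have h3 : s + 1 ≡ t + 1 + 1 [MOD k] := hinj _ _ h2
        have h4 : s ≡ t + 1 [MOD k] := Nat.ModEq.add_right_cancel' 1 h3
        refine ⟨inv (a (t + 1)), [], by simpa using hud, Or.inr ?_⟩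
        rw [haper _ _ h4]
      · obtain ⟨b, r, hb, hb'⟩ := ih _ hlen u' _ rfl hnil hred' h2
        exact ⟨b, r ++ [inv (a (t + 1))], by rw [hud, hb]; simp, hb'⟩
    -- otherwise: compare the two loops
    obtain ⟨b, r, hbr⟩ : ∃ b r, u = b :: r := List.exists_cons_of_ne_nil hu
    refine ⟨b, r, hbr, ?_⟩
    by_contra hcon
    push Not at hcon
    obtain ⟨hb1, hb2⟩ := hcon
    have hwu : walk act (c (s + 1)) u = c (t + 1) := by rw [hud, walk_snoc]; exact hw
    obtain ⟨k', rfl⟩ : ∃ k', k = k' + 1 := ⟨k - 1, by omega⟩
    set W1 := Wd a (s + 1) (k' + 1) with hW1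
    set W2 := Wd a (t + 1) (k' + 1) with hW2
    set q := u ++ W2 ++ invw inv u with hq
    have hloop1 : walk act (c (s + 1)) W1 = c (s + 1) := by
      rw [hW1, walk_Wd hc, hck]
    have hloop2 : walk act (c (s + 1)) q = c (s + 1) := by
      rw [hq, walk_append, walk_append, hwu, hW2, walk_Wd hc, hck, ← hwu, walk_invw hact]
    have hinvu1 : invw inv u = inv d :: invw inv u' := by
      rw [hud]; simp [invw]
    have hinvu2 : invw inv u = invw inv r ++ [inv b] := by
      rw [hbr]; simp [invw]
    have hW1a : W1 = a (s + 1) :: Wd a (s + 1 + 1) k' := rfl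
    have hW2a : W2 = a (t + 1) :: Wd a (t + 1 + 1) k' := rfl
    have hW1b : W1 = Wd a (s + 1) k' ++ [a s] := by
      rw [hW1, Wd_snoc]
      have : s + 1 + k' = s + (k' + 1) := by ring
      rw [this, hak]
    have hW2b : W2 = Wd a (t + 1) k' ++ [a t] := by
      rw [hW2, Wd_snoc]
      have : t + 1 + k' = t + (k' + 1) := by ring
      rw [this, hak]
    have hrW1 : Red inv W1 := red_Wd ha _ _
    have hrW2 : Red inv W2 := red_Wd ha _ _
    have hrq1 : Red inv (u ++ W2) := by
      unfold Red at *
      rw [List.isChain_append]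
      refine ⟨hred, hrW2, ?_⟩
      intro x hx y hy
      rw [hud] at hx
      rw [hW2a] at hy
      simp at hx hy
      subst hx; subst hy
      intro h
      apply h1'
      rw [h, hinv]
    have hrq : Red inv q := by
      rw [hq]
      unfold Red at *
      rw [List.isChain_append]
      refine ⟨hrq1, red_invw hinv hred, ?_⟩
      intro x hx y hy
      rw [hinvu1] at hy
      rw [hW2b, ← List.append_assoc] at hx
      simp at hx hy
      subst hx; subst hy
      intro h
      apply h1
      rw [← hinv d, h, hinv]
    have hr1 : Red inv (W1 ++ q) := by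
      unfold Red at *
      rw [List.isChain_append]
      refine ⟨hrW1, hrq, ?_⟩
      intro x hx y hy
      rw [hW1b] at hx
      rw [hq, hbr] at hy
      simp at hx hy
      subst hx; subst hy
      exact hb2
    have hr2 : Red inv (q ++ W1) := by
      unfold Red at *
      rw [List.isChain_append]
      refine ⟨hrq, hrW1, ?_⟩
      intro x hx y hy
      rw [hW1a] at hy
      rw [hq, hinvu2, ← List.append_assoc] at hx
      simp at hx hy
      subst hx; subst hy
      rw [hinv]
      exact fun h => hb1 h.symm
    have heq := hcomm (c (s + 1)) W1 q hloop1 hloop2 hr1 hr2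
    rw [hW1a, hq, hbr] at heq
    simp at heq
    exact hb1 heq.1.symm

/-- extraction of a cycle from a closed reduced walk -/
lemma exists_cycle (hinv : ∀ a, inv (inv a) = a) (hne : ∀ a, inv a ≠ a)
    (hact : ∀ a x, act (inv a) (act a x) = x) {Z : Set X} (hZ : ∀ y ∈ Z, ∀ a, act a y ∈ Z)
    (hex : ∃ x ∈ Z, ∃ w : List Lt, w ≠ [] ∧ Red inv w ∧ walk act x w = x) :
    ∃ (k : ℕ) (a : ℕ → Lt) (c : ℕ → X), 0 < k ∧ (∀ n, c (n + 1) = act (a n) (c n)) ∧
      (∀ n, a (n + k) = a n) ∧ (∀ n, c (n + k) = c n) ∧ (∀ n, a (n + 1) ≠ inv (a n)) ∧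
      (∀ m n, c m = c n → m ≡ n [MOD k]) ∧ ∀ n, c n ∈ Z := by
  classical
  have hwalkZ : ∀ w : List Lt, ∀ y ∈ Z, walk act y w ∈ Z := by
    intro w
    induction w with
    | nil => intro y hy; exact hy
    | cons a w ih => intro y hy; exact ih _ (hZ y hy a)
  have hex' : ∃ k, 0 < k ∧ ∃ x ∈ Z, ∃ w : List Lt, w.length = k ∧ Red inv w ∧
      walk act x w = x := by
    obtain ⟨x, hx, w, hw, h1, h2⟩ := hex
    exact ⟨w.length, List.length_pos_of_ne_nil hw, x, hx, w, rfl, h1, h2⟩
  obtain ⟨hk, x, hx, w, hlen, hred, hclosed⟩ := Nat.find_spec hex'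
  have hmin : ∀ m, m < Nat.find hex' → 0 < m → ∀ y ∈ Z, ∀ v : List Lt, v.length = m →
      Red inv v → walk act y v ≠ y := by
    intro m hm hm0 y hy v hv1 hv2 hv3
    exact Nat.find_min hex' hm ⟨hm0, y, hy, v, hv1, hv2, hv3⟩
  generalize Nat.find hex' = k at hk hlen hmin
  have hmodlt : ∀ n, n % k < w.length := fun n => by rw [hlen]; exact Nat.mod_lt _ hk
  let a : ℕ → Lt := fun n => w[n % k]'(hmodlt n)
  let c : ℕ → X := fun n => walk act x (w.take (n % k))
  have hcZ : ∀ n, c n ∈ Z := fun n => hwalkZ _ x hx
  have htake : ∀ m (hm : m < w.length), walk act x (w.take (m + 1)) =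
      act w[m] (walk act x (w.take m)) := by
    intro m hm
    rw [List.take_succ_eq_append_getElem hm, walk_snoc]
  have hc : ∀ n, c (n + 1) = act (a n) (c n) := by
    intro n
    show walk act x (w.take ((n + 1) % k)) = act (w[n % k]'(hmodlt n))
      (walk act x (w.take (n % k)))
    rw [← htake (n % k) (hmodlt n)]
    by_cases h : n % k + 1 < k
    · have : (n + 1) % k = n % k + 1 := by
        rw [Nat.add_mod]
        by_cases hk1 : k = 1
        · omega
        · have h1 : 1 % k = 1 := Nat.mod_eq_of_lt (by omega)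
          rw [h1, Nat.mod_eq_of_lt h]
      rw [this]
    · have h1 : n % k + 1 = k := by have := Nat.mod_lt n hk; omega
      have h2 : (n + 1) % k = 0 := by
        have : n + 1 = k * (n / k) + (n % k + 1) := by
          have := Nat.div_add_mod n k; omega
        rw [this, h1]; simp
      rw [h2, h1, ← hlen, List.take_length, hclosed]
      rfl
  have hper : ∀ n, (n + k) % k = n % k := fun n => Nat.add_mod_right n k
  have hak : ∀ n, a (n + k) = a n := by
    intro n
    show w[(n + k) % k]'(hmodlt _) = w[n % k]'(hmodlt _)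
    simp only [hper]
  have hck : ∀ n, c (n + k) = c n := by
    intro n
    show walk act x (w.take ((n + k) % k)) = walk act x (w.take (n % k))
    rw [hper]
  have ha : ∀ n, a (n + 1) ≠ inv (a n) := by
    intro n
    show w[(n + 1) % k]'(hmodlt _) ≠ inv (w[n % k]'(hmodlt _))
    by_cases h : n % k + 1 < k
    · have h3 : (n + 1) % k = n % k + 1 := by
        rw [Nat.add_mod]
        by_cases hk1 : k = 1
        · omega
        · have h1 : 1 % k = 1 := Nat.mod_eq_of_lt (by omega)
          rw [h1, Nat.mod_eq_of_lt h]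
      simp only [h3]
      exact List.IsChain.getElem hred (n % k) (by omega)
    · have h1 : n % k = k - 1 := by have := Nat.mod_lt n hk; omega
      have h2 : (n + 1) % k = 0 := by
        have : n + 1 = k * (n / k) + (n % k + 1) := by
          have := Nat.div_add_mod n k; omega
        rw [this, h1]
        have : k - 1 + 1 = k := by omega
        rw [this]; simp
      simp only [h1, h2]
      intro hcon
      -- w = e :: ... ++ [inv e]
      obtain ⟨e, v, rfl⟩ : ∃ e v, w = e :: v :=
        List.exists_cons_of_ne_nil (by intro h; rw [h] at hlen; simp at hlen; omega)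
      have hsub := List.IsChain.right_of_append (l₁ := [e]) (l₂ := v) hred
      rcases List.eq_nil_or_concat v with hv | ⟨v', d, hv⟩
      · subst hv
        simp at hlen
        subst hlen
        simp at hcon
        exact hne e hcon.symm
      · have hv' : v = v' ++ [d] := by simpa using hv
        subst hv'
        have hk2 : k = v'.length + 2 := by rw [← hlen]; simp
        have hidx : (e :: (v' ++ [d]))[k - 1]'(by rw [hlen]; omega) = d := by
          subst hk2
          simp
        rw [hidx] at hcon
        simp at hcon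
        have hd : d = inv e := by rw [hcon, hinv]
        subst hd
        rcases List.eq_nil_or_concat v' with hv1 | ⟨v1, d1, hv1⟩
        · subst hv1
          unfold Red at hred
          simp at hred
        · have hloop : walk act (act e x) v' = act e x := by
            have h5 : walk act x (e :: (v' ++ [inv e])) = x := hclosed
            have h6 : walk act x (e :: (v' ++ [inv e])) =
                act (inv e) (walk act (act e x) v') := by
              show walk act (act e x) (v' ++ [inv e]) = _
              rw [walk_snoc]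
            rw [h6] at h5
            have h7 : act (inv e) (walk act (act e x) v') = act (inv e) (act e x) := by
              rw [h5, hact]
            exact act_inj hact h7
          refine hmin v'.length (by omega) ?_ (act e x) (hZ x hx e) v' rfl ?_ hloop
          · rw [hv1]; simp
          · exact List.IsChain.left_of_append hsub
  have hinj : ∀ m n, c m = c n → m ≡ n [MOD k] := by
    have key : ∀ i j, i < j → j < k → walk act x (w.take i) ≠ walk act x (w.take j) := by
      intro i j hij hj heq
      have h1 : w.take j = w.take i ++ (w.take j).drop i := by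
        have := (List.take_append_drop i (w.take j)).symm
        rwa [List.take_take, min_eq_left hij.le] at this
      rw [h1, walk_append] at heq
      refine hmin (j - i) (by omega) (by omega) _ (hwalkZ _ x hx) ((w.take j).drop i) ?_ ?_
        heq.symm
      · rw [List.length_drop, List.length_take, hlen, min_eq_left hj.le]
      · have h2 : w = w.take i ++ (w.take j).drop i ++ w.drop j := by
          rw [← h1, List.take_append_drop]
        rw [h2] at hred
        exact List.IsChain.right_of_append (List.IsChain.left_of_append hred)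
    intro m n hmn
    have hm := Nat.mod_lt m hk
    have hn := Nat.mod_lt n hk
    show m % k = n % k
    rcases lt_trichotomy (m % k) (n % k) with h | h | h
    · exact absurd hmn (key _ _ h hn)
    · exact h
    · exact absurd hmn.symm (key _ _ h hm)
  exact ⟨k, a, c, hk, hc, hak, hck, ha, hinj, hcZ⟩

/-- the starting sets for the labelling -/
theorem exists_base [Nonempty I] (hinv : ∀ a, inv (inv a) = a) (hne : ∀ a, inv a ≠ a)
    (hact : ∀ a x, act (inv a) (act a x) = x) {T : Lt → I → I → Prop}
    (hTs : ∀ a j j', T a j j' → T (inv a) j' j)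
    (hcomm : ∀ x w q, walk act x w = x → walk act x q = x → Red inv (w ++ q) →
      Red inv (q ++ w) → w ++ q = q ++ w)
    (hcyc : ∀ (k : ℕ) (a : ℕ → Lt) (c : ℕ → X), 0 < k → (∀ n, c (n + 1) = act (a n) (c n)) →
      (∀ n, a (n + k) = a n) → (∀ n, c (n + k) = c n) → (∀ n, a (n + 1) ≠ inv (a n)) →
      ∃ lab : ℕ → I, (∀ n, lab (n + k) = lab n) ∧ ∀ n, T (a n) (lab n) (lab (n + 1)))
    (Y : Set X) (hY : ∀ y ∈ Y, ∀ a, act a y ∈ Y) (x : X) (hx : x ∉ Y) :
    ∃ (Y₀ : Set X) (l₀ : X → I), Y₀.Nonempty ∧ (∀ y ∈ Y₀, y ∉ Y) ∧ Qs inv act Y₀ ∧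
        Good act T Y₀ l₀ := by
  classical
  have hZ : ∀ y ∈ Yᶜ, ∀ a, act a y ∈ Yᶜ := by
    intro y hy a h
    have := hY _ h (inv a)
    rw [hact] at this
    exact hy this
  by_cases hex : ∃ x ∈ Yᶜ, ∃ w : List Lt, w ≠ [] ∧ Red inv w ∧ walk act x w = x
  · obtain ⟨k, a, c, hk, hc, hak, hck, ha, hinj, hcZ⟩ := exists_cycle hinv hne hact hZ hex
    obtain ⟨lab, hlk, hlT⟩ := hcyc k a c hk hc hak hck ha
    let l₀ : X → I := fun x => if h : ∃ n, c n = x then lab h.choose else Classical.arbitrary I
    have hl₀ : ∀ n, l₀ (c n) = lab n := by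
      intro n
      have h : ∃ m, c m = c n := ⟨n, rfl⟩
      have h1 : l₀ (c n) = lab h.choose := by simp only [l₀]; rw [dif_pos h]
      rw [h1]
      have h2 : h.choose ≡ n [MOD k] := hinj _ _ h.choose_spec
      have hp : Function.Periodic lab k := hlk
      rw [← hp.map_mod_nat h.choose, ← hp.map_mod_nat n, h2]
    have hpred : ∀ m, ∃ s, c m = c (s + 1) := by
      intro m
      refine ⟨m + k - 1, ?_⟩
      rw [← hck m]
      congr 1
      omega
    have key := cyc_claim hinv hact hcomm hk hc hak hck ha hinj
    have key1 : ∀ s b w m, Red inv (b :: w) → walk act (c (s + 1)) (b :: w) = c m →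
        b = a (s + 1) ∨ b = inv (a s) := by
      intro s b w m hw he
      obtain ⟨t, ht⟩ := hpred m
      rw [ht] at he
      obtain ⟨b', r, h1, h2⟩ := key s _ (b :: w) t rfl (by simp) hw he
      simp at h1
      rw [h1.1]; exact h2
    have hback : ∀ s, act (inv (a s)) (c (s + 1)) = c s := by
      intro s; rw [hc, hact]
    refine ⟨Set.range c, l₀, ⟨c 0, 0, rfl⟩, ?_, ?_, ?_⟩
    · rintro y ⟨n, rfl⟩; exact hcZ n
    · rintro y ⟨m, rfl⟩ b hb w hw ⟨m', hm'⟩
      obtain ⟨s, hs⟩ := hpred m
      rw [hs] at hb hm'
      rcases key1 s b w m' hw hm'.symm with h | h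
      · subst h
        exact hb ⟨s + 1 + 1, hc _⟩
      · subst h
        exact hb ⟨s, (hback s).symm⟩
    · rintro y ⟨m, rfl⟩ b ⟨m', hm'⟩
      obtain ⟨s, hs⟩ := hpred m
      rw [hs] at hm' ⊢
      rcases key1 s b [] m' (by simp [Red]) hm'.symm with h | h
      · subst h
        rw [← hc, hl₀, hl₀]
        exact hlT _
      · subst h
        rw [hback, hl₀, hl₀]
        exact hTs _ _ _ (hlT _)
  · refine ⟨{x}, fun _ => Classical.arbitrary I, ⟨x, rfl⟩, ?_, ?_, ?_⟩
    · rintro y rfl; exact hx
    · rintro y rfl b hb w hw hmem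
      exact hex ⟨y, hx, b :: w, by simp, hw, hmem⟩
    · rintro y rfl b hb
      exact absurd ⟨y, hx, [b], by simp, by simp [Red], hb⟩ hex

end cyc

end Pool.Agent.U85.HP
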