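import Mathlib

/-! Labelling the vertices of a graph of letters in which every component has at most one
cycle: a greedy extension argument. -/

set_option autoImplicit false

namespace Pool.Agent.U85.HP

section gen

variable {Lt X I : Type} (inv : Lt → Lt) (act : Lt → X → X)

/-- follow a word, head first -/
def walk (act : Lt → X → X) : X → List Lt → X
  | x, [] => x
  | x, a :: w => walk act (act a x) w

/-- reduced words -/
def Red (w : List Lt) : Prop := w.IsChain (fun a b => b ≠ inv a)

/-- once a reduced walk leaves the set, it never comes back -/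
def Qs (Y : Set X) : Prop :=
  ∀ y ∈ Y, ∀ b, act b y ∉ Y → ∀ w, Red inv (b :: w) → walk act (act b y) w ∉ Y

lemma walk_append (x : X) (u v : List Lt) :
    walk act x (u ++ v) = walk act (walk act x u) v := by
  induction u generalizing x with
  | nil => rfl
  | cons a u ih => simp [walk, ih]

lemma walk_snoc (x : X) (u : List Lt) (a : Lt) :
    walk act x (u ++ [a]) = act a (walk act x u) := by
  simp [walk_append, walk]

variable {inv act}

lemma act_inj (hact : ∀ a x, act (inv a) (act a x) = x) {a : Lt} {x y : X}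
    (h : act a x = act a y) : x = y := by
  rw [← hact a x, h, hact]

lemma red_snoc {w : List Lt} {a b : Lt} (h : Red inv (w ++ [a])) (hb : b ≠ inv a) :
    Red inv (w ++ [a] ++ [b]) := by
  unfold Red at *
  rw [List.isChain_append]
  refine ⟨h, by simp, ?_⟩
  intro x hx y hy
  simp at hx hy
  subst hx; subst hy
  exact hb

lemma core (hinv : ∀ a, inv (inv a) = a)
    (hact : ∀ a x, act (inv a) (act a x) = x) {Y : Set X} (hQ : Qs inv act Y) {y : X} {b : Lt}
    (hy : y ∈ Y) : ∀ y' ∈ Y, ∀ c, act c y' ∉ Y → ∀ w, Red inv (c :: w) →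
      walk act (act c y') w = act b y → w = [] ∧ c = b := by
  intro y' hy' c hc w hw he
  -- last letter
  obtain ⟨u, d, hud⟩ : ∃ u d, c :: w = u ++ [d] := by
    rcases List.eq_nil_or_concat (c :: w) with h | ⟨u, d, h⟩
    · simp at h
    · exact ⟨u, d, by simpa using h⟩
  have hwalk : walk act y' (u ++ [d]) = act b y := by
    rw [← hud]; exact he
  rw [walk_snoc] at hwalk
  by_cases hd : d = b
  · subst hd
    have h1 := act_inj hact hwalk
    cases u with
    | nil =>
      simp at hud
      exact ⟨hud.2, hud.1⟩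
    | cons e u' =>
      simp at hud
      obtain ⟨rfl, hw'⟩ := hud
      exfalso
      have hr : Red inv (c :: u') := by
        rw [hw'] at hw
        exact List.IsChain.left_of_append (l₁ := c :: u') (l₂ := [d]) hw
      apply hQ y' hy' c hc u' hr
      have : walk act (act c y') u' = walk act y' (c :: u') := rfl
      rw [this, h1]; exact hy
  · exfalso
    have hr : Red inv ((c :: w) ++ [inv b]) := by
      rw [hud] at hw ⊢
      apply red_snoc hw
      intro h
      apply hd
      rw [← hinv d, ← h, hinv]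
    have := hQ y' hy' c hc (w ++ [inv b]) hr
    rw [walk_snoc, he, hact] at this
    exact this hy

lemma Qs_insert (hinv : ∀ a, inv (inv a) = a)
    (hact : ∀ a x, act (inv a) (act a x) = x) {Y : Set X} (hQ : Qs inv act Y) {y : X} {b : Lt}
    (hy : y ∈ Y) (hz : act b y ∉ Y) : Qs inv act (insert (act b y) Y) := by
  intro y' hy' c hc w hw hmem
  have hc1 : act c y' ≠ act b y := fun h => hc (by rw [h]; exact Set.mem_insert _ _)
  have hc2 : act c y' ∉ Y := fun h => hc (Set.mem_insert_of_mem _ h)
  rcases Set.mem_insert_iff.1 hy' with h1 | h1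
  · -- start at the new point
    subst h1
    have hcb : c ≠ inv b := by
      rintro rfl
      rw [hact] at hc2
      exact hc2 hy
    have hred : Red inv (b :: c :: w) := by
      unfold Red at *
      rw [List.isChain_cons_cons]
      exact ⟨hcb, hw⟩
    rcases Set.mem_insert_iff.1 hmem with h2 | h2
    · have := core hinv hact hQ hy y hy b hz (c :: w) hred h2
      simp at this
    · exact hQ y hy b hz (c :: w) hred h2
  · rcases Set.mem_insert_iff.1 hmem with h2 | h2
    · obtain ⟨h3, h4⟩ := core hinv hact hQ hy y' h1 c hc2 w hw h2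
      subst h3
      exact hc1 h2
    · exact hQ y' h1 c hc2 w hw h2

/-- labels are compatible along inner edges -/
def Good (act : Lt → X → X) (T : Lt → I → I → Prop) (Y : Set X) (l : X → I) : Prop :=
  ∀ y ∈ Y, ∀ a, act a y ∈ Y → T a (l y) (l (act a y))

lemma extend (hinv : ∀ a, inv (inv a) = a)
    (hact : ∀ a x, act (inv a) (act a x) = x) {T : Lt → I → I → Prop}
    (hTs : ∀ a j j', T a j j' → T (inv a) j' j) (hT : ∀ a j, ∃ j', T a j j')
    {Y : Set X} {l : X → I} (hQ : Qs inv act Y) (hG : Good act T Y l) {y : X} {b : Lt}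
    (hy : y ∈ Y) (hz : act b y ∉ Y) :
    ∃ l' : X → I, (∀ x ∈ Y, l' x = l x) ∧ Good act T (insert (act b y) Y) l' := by
  classical
  obtain ⟨j, hj⟩ := hT b (l y)
  have hl' : ∀ x ∈ Y, Function.update l (act b y) j x = l x := by
    intro x hx
    rw [Function.update_of_ne]
    rintro rfl
    exact hz hx
  refine ⟨Function.update l (act b y) j, hl', ?_⟩
  intro y' hy' c hc
  rcases Set.mem_insert_iff.1 hy' with h1 | h1
  · subst h1
    rcases Set.mem_insert_iff.1 hc with h2 | h2
    · exfalso
      by_cases hcb : c = inv b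
      · subst hcb
        rw [hact] at h2
        rw [← h2] at hz
        exact hz hy
      · have hred : Red inv (b :: [c]) := by
          unfold Red
          rw [List.isChain_cons_cons]
          exact ⟨hcb, by simp⟩
        have := core hinv hact hQ hy y hy b hz [c] hred h2
        simp at this
    · -- edge from z back into Y
      have hcc : act (inv c) (act c (act b y)) = act b y := hact _ _
      have h3 := core hinv hact hQ hy (act c (act b y)) h2 (inv c) (by rw [hcc]; exact hz) []
        (by simp [Red]) (by simpa [walk] using hcc)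
      have h4 : inv c = b := h3.2
      have h5 : c = inv b := by rw [← h4, hinv]
      subst h5
      rw [hact, Function.update_self, hl' y hy]
      exact hTs _ _ _ hj
  · rcases Set.mem_insert_iff.1 hc with h2 | h2
    · have h3 := core hinv hact hQ hy y' h1 c (by rw [h2]; exact hz) []
        (by simp [Red]) (by simpa [walk] using h2)
      have h4 : c = b := h3.2
      subst h4
      have h5 := act_inj hact h2
      subst h5
      rw [Function.update_self, hl' _ hy]
      exact hj
    · rw [hl' _ h1, hl' _ h2]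
      exact hG _ h1 _ h2

/-- the global labelling, given good starting sets -/
theorem exists_label [Nonempty I] (hinv : ∀ a, inv (inv a) = a)
    (hact : ∀ a x, act (inv a) (act a x) = x) {T : Lt → I → I → Prop}
    (hTs : ∀ a j j', T a j j' → T (inv a) j' j) (hT : ∀ a j, ∃ j', T a j j')
    (hbase : ∀ Y : Set X, (∀ y ∈ Y, ∀ a, act a y ∈ Y) → ∀ x, x ∉ Y →
      ∃ (Y₀ : Set X) (l₀ : X → I), Y₀.Nonempty ∧ (∀ y ∈ Y₀, y ∉ Y) ∧ Qs inv act Y₀ ∧
        Good act T Y₀ l₀) :
    ∃ l : X → I, ∀ x a, T a (l x) (l (act a x)) := by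
  classical
  let S := {p : Set X × (X → I) // Qs inv act p.1 ∧ Good act T p.1 p.2}
  let r : S → S → Prop := fun p q => p.1.1 ⊆ q.1.1 ∧ ∀ x ∈ p.1.1, q.1.2 x = p.1.2 x
  have htrans : ∀ {p q s : S}, r p q → r q s → r p s := by
    intro p q s h1 h2
    exact ⟨h1.1.trans h2.1, fun x hx => by rw [h2.2 x (h1.1 hx), h1.2 x hx]⟩
  have hrefl : ∀ p : S, r p p := fun p => ⟨subset_rfl, fun x _ => rfl⟩
  have hchain : ∀ c : Set S, IsChain r c → ∃ ub, ∀ a ∈ c, r a ub := by
    intro c hc
    have htot : ∀ p ∈ c, ∀ q ∈ c, ∃ s ∈ c, r p s ∧ r q s := by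
      intro p hp q hq
      by_cases hpq : p = q
      · subst hpq; exact ⟨p, hp, hrefl p, hrefl p⟩
      · rcases hc hp hq hpq with h | h
        · exact ⟨q, hq, h, hrefl q⟩
        · exact ⟨p, hp, hrefl p, h⟩
    let Y : Set X := {x | ∃ p ∈ c, x ∈ p.1.1}
    let l : X → I := fun x => if h : ∃ p ∈ c, x ∈ p.1.1 then h.choose.1.2 x
      else Classical.arbitrary I
    have hl : ∀ p ∈ c, ∀ x ∈ p.1.1, l x = p.1.2 x := by
      intro p hp x hx
      have h : ∃ p ∈ c, x ∈ p.1.1 := ⟨p, hp, hx⟩
      have h1 : l x = h.choose.1.2 x := by simp only [l]; rw [dif_pos h]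
      obtain ⟨s, hs, h2, h3⟩ := htot p hp h.choose h.choose_spec.1
      rw [h1, ← h2.2 x hx, ← h3.2 x h.choose_spec.2]
    have hQ : Qs inv act Y := by
      rintro y ⟨p, hp, hy⟩ b hb w hw ⟨q, hq, hm⟩
      obtain ⟨s, hs, h2, h3⟩ := htot p hp q hq
      exact s.2.1 y (h2.1 hy) b (fun h => hb ⟨s, hs, h⟩) w hw (h3.1 hm)
    have hG : Good act T Y l := by
      rintro y ⟨p, hp, hy⟩ a ⟨q, hq, hm⟩
      obtain ⟨s, hs, h2, h3⟩ := htot p hp q hq
      rw [hl s hs _ (h2.1 hy), hl s hs _ (h3.1 hm)]
      exact s.2.2 y (h2.1 hy) a (h3.1 hm)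
    exact ⟨⟨(Y, l), hQ, hG⟩, fun p hp => ⟨fun x hx => ⟨p, hp, hx⟩, fun x hx => hl p hp x hx⟩⟩
  obtain ⟨m, hm⟩ := exists_maximal_of_chains_bounded hchain htrans
  obtain ⟨⟨Y, l⟩, hQ, hG⟩ := m
  simp only at hQ hG
  -- Y is invariant
  have hYinv : ∀ y ∈ Y, ∀ a, act a y ∈ Y := by
    intro y hy a
    by_contra hz
    obtain ⟨l', hl', hG'⟩ := extend hinv hact hTs hT hQ hG hy hz
    have h := hm ⟨(insert (act a y) Y, l'), Qs_insert hinv hact hQ hy hz, hG'⟩
      ⟨Set.subset_insert _ _, fun x hx => hl' x hx⟩
    exact hz (h.1 (Set.mem_insert _ _))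
  have hYuniv : ∀ x, x ∈ Y := by
    intro x
    by_contra hx
    obtain ⟨Y₀, l₀, ⟨y₀, hy₀⟩, hdis, hQ₀, hG₀⟩ := hbase Y hYinv x hx
    have hwalkY : ∀ w : List Lt, ∀ y ∈ Y, walk act y w ∈ Y := by
      intro w
      induction w with
      | nil => intro y hy; exact hy
      | cons a w ih => intro y hy; exact ih _ (hYinv y hy a)
    have hYinv' : ∀ y a, act a y ∈ Y → y ∈ Y := by
      intro y a h
      have := hYinv _ h (inv a)
      rwa [hact] at this
    have hwalkY' : ∀ w : List Lt, ∀ y, walk act y w ∈ Y → y ∈ Y := by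
      intro w
      induction w with
      | nil => intro y hy; exact hy
      | cons a w ih => intro y hy; exact hYinv' y a (ih _ hy)
    have hQ' : Qs inv act (Y ∪ Y₀) := by
      rintro y hy b hb w hw hmem
      rcases hy with hy | hy
      · exact hb (Or.inl (hYinv y hy b))
      · rcases hmem with h | h
        · exact hdis y hy (hYinv' y b (hwalkY' w _ h))
        · exact hQ₀ y hy b (fun h' => hb (Or.inr h')) w hw h
    have hG' : Good act T (Y ∪ Y₀) (fun x => if x ∈ Y then l x else l₀ x) := by
      rintro y hy a ha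
      by_cases h1 : y ∈ Y
      · have h2 := hYinv y h1 a
        simp only [h1, h2, if_true]
        exact hG y h1 a h2
      · have h2 : act a y ∉ Y := fun h => h1 (hYinv' y a h)
        simp only [h1, h2, if_false]
        exact hG₀ y (hy.resolve_left h1) a (ha.resolve_left h2)
    have h := hm ⟨(Y ∪ Y₀, fun x => if x ∈ Y then l x else l₀ x), hQ', hG'⟩
      ⟨Set.subset_union_left, fun x hx => by simp [hx]⟩
    exact hdis y₀ hy₀ (h.1 (Or.inr hy₀))
  exact ⟨l, fun x a => hG x (hYuniv x) a (hYuniv _)⟩

end gen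

end Pool.Agent.U85.HP
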