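import Pool.Agent.U85.HP.Cycle

/-! Solving the systems of set conditions along the letters of a free group. -/

set_option autoImplicit false

namespace Pool.Agent.U85.HP

section cycsol

variable {I : Type}

lemma two_points {R L : Set I} (hR : R.Nonempty) (hR' : R ≠ Set.univ) (h1 : R ≠ L)
    (h2 : R ≠ Lᶜ) : ∃ p p', p ∈ R ∧ p' ∉ R ∧ (p ∈ L ↔ p' ∈ L) := by
  by_contra hcon
  push Not at hcon
  obtain ⟨r, hr⟩ := hR
  obtain ⟨s, hs⟩ := (Set.ne_univ_iff_exists_notMem R).1 hR'
  have key : ∀ p p', p ∈ R → p' ∉ R → ¬ (p ∈ L ↔ p' ∈ L) := by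
    intro p p' hp hp' h
    rcases hcon p p' hp hp' with h3 | h3
    · exact h3.2 (h.1 h3.1)
    · exact h3.1 (h.2 h3.2)
  by_cases hrL : r ∈ L
  · apply h1
    have hs1 : s ∉ L := fun h => key r s hr hs ⟨fun _ => h, fun _ => hrL⟩
    ext x
    constructor
    · intro hx
      by_contra hxL
      exact key x s hx hs ⟨fun h => absurd h hxL, fun h => absurd h hs1⟩
    · intro hx
      by_contra hxR
      exact key r x hr hxR ⟨fun _ => hx, fun _ => hrL⟩
  · apply h2
    have hs1 : s ∈ L := by
      by_contra h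
      exact key r s hr hs ⟨fun h' => absurd h' hrL, fun h' => absurd h' h⟩
    ext x
    constructor
    · intro hx hxL
      exact key x s hx hs ⟨fun _ => hs1, fun _ => hxL⟩
    · intro hx
      by_contra hxR
      exact key r x hr hxR ⟨fun h => absurd h hrL, fun h => absurd h hx⟩

lemma cyc_sol0 [Nonempty I] {k : ℕ} (hk : 0 < k) (L R : ℕ → Set I)
    (hLp : ∀ n, L (n + k) = L n) (hRp : ∀ n, R (n + k) = R n)
    (hR : ∀ n, (R n).Nonempty ∧ R n ≠ Set.univ) (h1 : R (k - 1) ≠ L 0)
    (h2 : R (k - 1) ≠ (L 0)ᶜ) :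
    ∃ lab : ℕ → I, (∀ n, lab (n + k) = lab n) ∧ ∀ n, (lab n ∈ L n ↔ lab (n + 1) ∈ R n) := by
  classical
  obtain ⟨p, p', hp, hp', hpp⟩ := two_points (hR (k - 1)).1 (hR (k - 1)).2 h1 h2
  have hf : ∀ (n : ℕ) (b : Prop), ∃ j, (j ∈ R n ↔ b) := by
    intro n b
    by_cases hb : b
    · obtain ⟨j, hj⟩ := (hR n).1
      exact ⟨j, by simp [hb, hj]⟩
    · obtain ⟨j, hj⟩ := (Set.ne_univ_iff_exists_notMem _).1 (hR n).2
      exact ⟨j, by simp [hb, hj]⟩
  choose f hf using hf
  let m : ℕ → I := fun n => Nat.rec p (fun n x => f n (x ∈ L n)) n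
  have hm0 : m 0 = p := rfl
  have hms : ∀ n, (m (n + 1) ∈ R n ↔ m n ∈ L n) := fun n => hf n _
  let lab : ℕ → I := fun n => if n % k = 0 then (if m k ∈ R (k - 1) then p else p')
    else m (n % k)
  have hLm : ∀ n, L (n % k) = L n := fun n => Function.Periodic.map_mod_nat (f := L) hLp n
  have hRm : ∀ n, R (n % k) = R n := fun n => Function.Periodic.map_mod_nat (f := R) hRp n
  refine ⟨lab, ?_, ?_⟩
  · intro n
    simp only [lab, Nat.add_mod_right]
  · intro n
    have hr := Nat.mod_lt n hk
    have fact1 : lab n ∈ L n ↔ m (n % k) ∈ L (n % k) := by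
      rw [← hLm n]
      by_cases h : n % k = 0
      · simp only [lab, h, if_true, hm0]
        split_ifs
        · rfl
        · exact hpp.symm
      · simp only [lab, h, if_false]
    have fact2 : lab (n + 1) ∈ R n ↔ m (n % k + 1) ∈ R (n % k) := by
      rw [← hRm n]
      by_cases h : n % k + 1 < k
      · have h3 : (n + 1) % k = n % k + 1 := by
          rw [Nat.add_mod]
          by_cases hk1 : k = 1
          · omega
          · have h1 : 1 % k = 1 := Nat.mod_eq_of_lt (by omega)
            rw [h1, Nat.mod_eq_of_lt h]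
        simp only [lab, h3, Nat.succ_ne_zero, if_false]
      · have h1 : n % k = k - 1 := by omega
        have h1' : n % k + 1 = k := by omega
        have h2 : (n + 1) % k = 0 := by
          have : n + 1 = k * (n / k) + (n % k + 1) := by
            have := Nat.div_add_mod n k; omega
          rw [this, h1']; simp
        simp only [lab, h2, if_true]
        rw [h1', h1]
        split_ifs with h4
        · simp [hp, h4]
        · simp [hp', h4]
    rw [fact1, fact2]
    exact (hms _).symm

lemma cyc_sol [Nonempty I] {k : ℕ} (hk : 0 < k) (L R : ℕ → Set I)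
    (hLp : ∀ n, L (n + k) = L n) (hRp : ∀ n, R (n + k) = R n)
    (hR : ∀ n, (R n).Nonempty ∧ R n ≠ Set.univ) (n₀ : ℕ) (h1 : R n₀ ≠ L (n₀ + 1))
    (h2 : R n₀ ≠ (L (n₀ + 1))ᶜ) :
    ∃ lab : ℕ → I, (∀ n, lab (n + k) = lab n) ∧ ∀ n, (lab n ∈ L n ↔ lab (n + 1) ∈ R n) := by
  have hLk : ∀ m n, L (n + k * m) = L n := by
    intro m
    induction m with
    | zero => intro n; simp
    | succ m ih => intro n; rw [← ih n, Nat.mul_succ, ← add_assoc, hLp]
  have hRk : ∀ m n, R (n + k * m) = R n := by
    intro m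
    induction m with
    | zero => intro n; simp
    | succ m ih => intro n; rw [← ih n, Nat.mul_succ, ← add_assoc, hRp]
  have e1 : k - 1 + (n₀ + 1) = n₀ + k := by omega
  obtain ⟨lab, hl1, hl2⟩ := cyc_sol0 hk (fun n => L (n + (n₀ + 1))) (fun n => R (n + (n₀ + 1)))
    (fun n => by
      show L (n + k + (n₀ + 1)) = L (n + (n₀ + 1))
      rw [← hLp (n + (n₀ + 1))]; congr 1; ring)
    (fun n => by
      show R (n + k + (n₀ + 1)) = R (n + (n₀ + 1))
      rw [← hRp (n + (n₀ + 1))]; congr 1; ring)
    (fun n => hR _)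
    (by
      show R (k - 1 + (n₀ + 1)) ≠ L (0 + (n₀ + 1))
      rw [e1, hRp, zero_add]; exact h1)
    (by
      show R (k - 1 + (n₀ + 1)) ≠ (L (0 + (n₀ + 1)))ᶜ
      rw [e1, hRp, zero_add]; exact h2)
  obtain ⟨k', rfl⟩ : ∃ k', k = k' + 1 := ⟨k - 1, by omega⟩
  refine ⟨fun n => lab (n + k' * (n₀ + 1)), ?_, ?_⟩
  · intro n
    have : n + (k' + 1) + k' * (n₀ + 1) = n + k' * (n₀ + 1) + (k' + 1) := by ring
    simp only [this]
    rw [hl1]
  · intro n
    have h3 := hl2 (n + k' * (n₀ + 1))
    have e2 : n + k' * (n₀ + 1) + (n₀ + 1) = n + (k' + 1) * (n₀ + 1) := by ring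
    have e3 : n + 1 + k' * (n₀ + 1) = n + k' * (n₀ + 1) + 1 := by ring
    simp only [e2] at h3
    rw [hLk, hRk] at h3
    simp only [e3]
    exact h3

end cycsol

section main

variable {ι X I : Type}

/-- inverse letter -/
def linv (a : ι × Bool) : ι × Bool := (a.1, !a.2)

/-- action of letters -/
def lact (σ : ι → Equiv.Perm X) (a : ι × Bool) (x : X) : X :=
  if a.2 then σ a.1 x else (σ a.1).symm x

lemma linv_linv (a : ι × Bool) : linv (linv a) = a := by simp [linv]

lemma linv_ne (a : ι × Bool) : linv a ≠ a := by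
  intro h
  have := congrArg Prod.snd h
  simp [linv] at this

lemma lact_linv (σ : ι → Equiv.Perm X) (a : ι × Bool) (x : X) :
    lact σ (linv a) (lact σ a x) = x := by
  rcases a with ⟨i, b⟩
  cases b <;> simp [lact, linv]

lemma red_iff (w : List (ι × Bool)) : Red linv w ↔ FreeGroup.IsReduced w := by
  unfold Red FreeGroup.IsReduced
  apply List.IsChain.iff
  rintro ⟨i, b⟩ ⟨j, c⟩
  simp only [linv, ne_eq, Prod.mk.injEq, not_and]
  constructor
  · intro h h'
    have h2 := h h'.symm
    revert h2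
    cases b <;> cases c <;> decide
  · intro h h'
    have h2 := h h'.symm
    revert h2
    cases b <;> cases c <;> decide

open Classical in
/-- target side of a positive letter -/
noncomputable def Rpos (o : ι) (A : ι → Set I) (i : ι) : Set I := if i = o then (A o)ᶜ else A i

/-- left side of a letter -/
noncomputable def Ls (o : ι) (A : ι → Set I) (a : ι × Bool) : Set I :=
  if a.2 then A o else Rpos o A a.1

/-- right side of a letter -/
noncomputable def Rs (o : ι) (A : ι → Set I) (a : ι × Bool) : Set I :=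
  if a.2 then Rpos o A a.1 else A o

lemma Ls_linv (o : ι) (A : ι → Set I) (a : ι × Bool) : Ls o A (linv a) = Rs o A a := by
  rcases a with ⟨i, b⟩
  cases b <;> simp [Ls, Rs, linv]

lemma Rs_linv (o : ι) (A : ι → Set I) (a : ι × Bool) : Rs o A (linv a) = Ls o A a := by
  rcases a with ⟨i, b⟩
  cases b <;> simp [Ls, Rs, linv]

lemma Rpos_good {o : ι} {A : ι → Set I} (hA : ∀ i, (A i).Nonempty ∧ A i ≠ Set.univ) (i : ι) :
    (Rpos o A i).Nonempty ∧ Rpos o A i ≠ Set.univ := by
  unfold Rpos
  split_ifs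
  · exact ⟨Set.nonempty_compl.2 (hA o).2, by
      intro h
      rw [Set.compl_univ_iff] at h
      exact (hA o).1.ne_empty h⟩
  · exact hA i

lemma Rs_good {o : ι} {A : ι → Set I} (hA : ∀ i, (A i).Nonempty ∧ A i ≠ Set.univ)
    (a : ι × Bool) : (Rs o A a).Nonempty ∧ Rs o A a ≠ Set.univ := by
  unfold Rs
  split_ifs
  · exact Rpos_good hA _
  · exact hA _

lemma exists_nonrigid {o : ι} {A : ι → Set I}
    (hd : ∀ i j, i ≠ j → A i ≠ A j ∧ A i ≠ (A j)ᶜ) {k : ℕ} (hk : 0 < k) {a : ℕ → ι × Bool}
    (hak : ∀ n, a (n + k) = a n) (ha : ∀ n, a (n + 1) ≠ linv (a n)) (n : ℕ)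
    (hn : (a n).1 ≠ o) :
    ∃ n₀, Rs o A (a n₀) ≠ Ls o A (a (n₀ + 1)) ∧ Rs o A (a n₀) ≠ (Ls o A (a (n₀ + 1)))ᶜ := by
  -- a positive letter `i ≠ o` against anything
  have key : ∀ (i : ι) (b : ι × Bool), i ≠ o → b ≠ (i, false) →
      A i ≠ Ls o A b ∧ A i ≠ (Ls o A b)ᶜ := by
    rintro i ⟨j, b⟩ hi hb
    cases b with
    | true => simpa [Ls] using hd i o hi
    | false =>
      have hij : i ≠ j := by
        rintro rfl
        exact hb rfl
      by_cases hj : j = o
      · subst hj
        have := hd i j hi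
        simp only [Ls, Rpos, if_true, Bool.false_eq_true, if_false, compl_compl]
        exact ⟨this.2, this.1⟩
      · simpa [Ls, Rpos, hj] using hd i j hij
  by_cases hs : (a n).2 = true
  · refine ⟨n, ?_⟩
    have h1 : Rs o A (a n) = A (a n).1 := by simp [Rs, Rpos, hs, hn]
    rw [h1]
    apply key _ _ hn
    have := ha n
    intro h
    apply this
    rw [h]
    simp [linv, hs]
  · have hs' : (a n).2 = false := by simpa using hs
    refine ⟨n + k - 1, ?_⟩
    have e : n + k - 1 + 1 = n + k := by omega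
    have h1 : Ls o A (a (n + k - 1 + 1)) = A (a n).1 := by
      rw [e, hak]
      simp [Ls, Rpos, hs', hn]
    rw [h1]
    have h2 := key (a n).1 (linv (a (n + k - 1))) hn (by
      intro h
      have h3 := ha (n + k - 1)
      rw [e, hak, h] at h3
      apply h3
      ext
      · rfl
      · simp [hs'])
    rw [Ls_linv] at h2
    refine ⟨fun h => h2.1 h.symm, fun h => h2.2 ?_⟩
    rw [h, compl_compl]

/-- The main labelling statement. -/
theorem label_sets [Nonempty I] (o : ι) (A : ι → Set I)
    (hA : ∀ i, (A i).Nonempty ∧ A i ≠ Set.univ)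
    (hd : ∀ i j, i ≠ j → A i ≠ A j ∧ A i ≠ (A j)ᶜ) (σ : ι → Equiv.Perm X)
    (hfree : ∀ k : ℕ, 0 < k → ∀ x, (σ o ^ k) x ≠ x)
    (hcomm : ∀ x (w q : List (ι × Bool)), walk (lact σ) x w = x → walk (lact σ) x q = x →
      FreeGroup.mk (w ++ q) = FreeGroup.mk (q ++ w)) :
    ∃ l : X → I, (∀ x, l x ∈ A o ↔ l (σ o x) ∉ A o) ∧
      ∀ i, i ≠ o → ∀ x, (l x ∈ A o ↔ l (σ i x) ∈ A i) := by
  classical
  let T : ι × Bool → I → I → Prop := fun a j j' => (j ∈ Ls o A a ↔ j' ∈ Rs o A a)
  have hTs : ∀ a j j', T a j j' → T (linv a) j' j := by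
    intro a j j' h
    show (j' ∈ Ls o A (linv a) ↔ j ∈ Rs o A (linv a))
    rw [Ls_linv, Rs_linv]
    exact h.symm
  have hT : ∀ a j, ∃ j', T a j j' := by
    intro a j
    by_cases hj : j ∈ Ls o A a
    · obtain ⟨j', hj'⟩ := (Rs_good (o := o) hA a).1
      exact ⟨j', by simp [T, hj, hj']⟩
    · obtain ⟨j', hj'⟩ := (Set.ne_univ_iff_exists_notMem _).1 (Rs_good (o := o) hA a).2
      exact ⟨j', by simp [T, hj, hj']⟩
  have hcomm' : ∀ x w q, walk (lact σ) x w = x → walk (lact σ) x q = x → Red linv (w ++ q) →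
      Red linv (q ++ w) → w ++ q = q ++ w := by
    intro x w q h1 h2 h3 h4
    have h5 := FreeGroup.reduce.sound (hcomm x w q h1 h2)
    rwa [((red_iff _).1 h3).reduce_eq, ((red_iff _).1 h4).reduce_eq] at h5
  have hcyc : ∀ (k : ℕ) (a : ℕ → ι × Bool) (c : ℕ → X), 0 < k →
      (∀ n, c (n + 1) = lact σ (a n) (c n)) → (∀ n, a (n + k) = a n) →
      (∀ n, c (n + k) = c n) → (∀ n, a (n + 1) ≠ linv (a n)) →
      ∃ lab : ℕ → I, (∀ n, lab (n + k) = lab n) ∧ ∀ n, T (a n) (lab n) (lab (n + 1)) := by
    intro k a c hk hc hak hck ha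
    by_cases hex : ∃ n, (a n).1 ≠ o
    · obtain ⟨n, hn⟩ := hex
      obtain ⟨n₀, h1, h2⟩ := exists_nonrigid hd hk hak ha n hn
      exact cyc_sol hk (fun n => Ls o A (a n)) (fun n => Rs o A (a n))
        (fun n => by simp only [hak]) (fun n => by simp only [hak])
        (fun n => Rs_good hA _) n₀ h1 h2
    · exfalso
      push Not at hex
      have hall : ∀ n, a n = a 0 := by
        intro n
        induction n with
        | zero => rfl
        | succ n ih =>
          have h1 := ha n
          have h2 := hex (n + 1)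
          have h3 := hex n
          rw [← ih]
          rcases hn : a n with ⟨i, b⟩
          rcases hn1 : a (n + 1) with ⟨j, b'⟩
          rw [hn, hn1] at h1
          rw [hn] at h3
          rw [hn1] at h2
          simp only at h2 h3
          subst h2
          subst h3
          cases b <;> cases b' <;> simp_all [linv]
      rcases h0 : a 0 with ⟨i, b⟩
      have hi : i = o := by have := hex 0; rw [h0] at this; exact this
      subst hi
      cases b with
      | true =>
        have hpow : ∀ n, c n = (σ i ^ n) (c 0) := by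
          intro n
          induction n with
          | zero => simp
          | succ n ih =>
            rw [hc, hall, h0, pow_succ', Equiv.Perm.mul_apply, ← ih]
            simp [lact]
        apply hfree k hk (c 0)
        rw [← hpow]
        have := hck 0
        rwa [zero_add] at this
      | false =>
        have hpow : ∀ n, c 0 = (σ i ^ n) (c n) := by
          intro n
          induction n with
          | zero => simp
          | succ n ih =>
            rw [hc, hall, h0, pow_succ, Equiv.Perm.mul_apply]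
            simp only [lact, Bool.false_eq_true, if_false, Equiv.apply_symm_apply]
            exact ih
        apply hfree k hk (c k)
        rw [← hpow]
        have := hck 0
        rw [zero_add] at this
        exact this.symm
  obtain ⟨l, hl⟩ := exists_label (inv := linv) (act := lact σ) linv_linv (lact_linv σ) hTs hT
    (fun Y hY x hx => exists_base linv_linv linv_ne (lact_linv σ) hTs hcomm' hcyc Y hY x hx)
  refine ⟨l, ?_, ?_⟩
  · intro x
    have := hl x (o, true)
    simpa [T, Ls, Rs, Rpos, lact] using this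
  · intro i hi x
    have := hl x (i, true)
    simpa [T, Ls, Rs, Rpos, lact, hi] using this

end main

end Pool.Agent.U85.HP
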